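import Mathlib
import Pool.Agent.U19.CoHL.Core

/-!
# `MP_77266e_gt`: first countable c.o. spaces with few types of countable clopen subspaces

A first countable c.o. space in which the countable clopen subspaces have only countably many
homeomorphism types is scattered. A hereditarily Lindelöf c.o. space is scattered and countable.
-/

set_option autoImplicit false

namespace Pool.Agent.Results.MP_77266e_gt.FewTypes

open Topology

universe u

/-- c.o. spaces (used for compact Hausdorff spaces): infinite, and every closed subspace is
homeomorphic to a clopen subspace. -/
def IsCO (X : Type u) [TopologicalSpace X] : Prop :=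
  Infinite X ∧ ∀ F : Set X, IsClosed F → ∃ U : Set X, IsClopen U ∧ Nonempty (F ≃ₜ U)

/-- Scattered spaces: every nonempty subset has an isolated point. -/
def IsScattered (X : Type u) [TopologicalSpace X] : Prop :=
  ∀ S : Set X, S.Nonempty → ∃ x ∈ S, ∃ V : Set X, IsOpen V ∧ V ∩ S = {x}

/-- The countable clopen subspaces of the space have only countably many homeomorphism types. -/
def FewCountableTypes (X : Type u) [TopologicalSpace X] : Prop :=
  ∃ r : ℕ → Set X, ∀ U : Set X, IsClopen U → U.Countable → ∃ n, Nonempty (U ≃ₜ r n)

/-- **Main theorem.** Let `X` be a compact Hausdorff c.o. space. (1) If `X` is first countable and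
its countable clopen subspaces have only countably many homeomorphism types, then `X` is scattered.
(2) If every subspace of `X` is Lindelöf, then `X` is scattered and countable. -/
theorem result (X : Type u) [TopologicalSpace X] [CompactSpace X] [T2Space X] (hX : IsCO X) :
    (FirstCountableTopology X → FewCountableTypes X → IsScattered X) ∧
    (HereditarilyLindelofSpace X → IsScattered X ∧ Countable X) := by
  refine ⟨fun h1 h2 => ?_, fun h => ?_⟩
  · obtain ⟨r, hr⟩ := h2
    exact Pool.U19.CoHL.scattered_of_types hX.2 r hr
  · exact ⟨Pool.U19.CoHL.scattered hX.2, Pool.U19.CoHL.countable hX.2⟩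

end Pool.Agent.Results.MP_77266e_gt.FewTypes
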